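import Pool.Agent.H85.Nil

set_option autoImplicit false

namespace Pool.Agent.Results.MP_64c48d_gt.Nilmanifold

open Pool.Agent.H85.SemiRiemDefs
open scoped Manifold ContDiff

/-- A closed 3-manifold with a complete indefinite metric and a nontrivial one-form that is affine
along every light-like geodesic and not constant along one of them. -/
theorem result : ∃ (M : Type) (_ : TopologicalSpace M) (_ : ChartedSpace (Euc 3) M)
    (_ : IsManifold 𝓘(ℝ, Euc 3) ∞ M) (_ : CompactSpace M) (_ : T2Space M) (g : Bilin (Euc 3) M)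
    (η : OneForm (Euc 3) M),
    IsIndefiniteMetric g ∧ IsComplete g ∧ IsSmoothForm η ∧ (∃ x v, η x v ≠ 0) ∧
      (∀ γ : ℝ → M, IsLightlike g γ → ∃ C₁ C₂ : ℝ, ∀ t, η (γ t) (vel (Euc 3) γ t) = C₁ * t + C₂) ∧
      ∃ γ : ℝ → M, IsLightlike g γ ∧
        ∃ C₁ C₂ : ℝ, C₁ ≠ 0 ∧ ∀ t, η (γ t) (vel (Euc 3) γ t) = C₁ * t + C₂ := by
  open Pool.Agent.H85.Nil in
  refine ⟨N, inferInstance, inferInstance, inferInstance, inferInstance, inferInstance,
    gN, eta, gN_metric, gN_complete, eta_smooth, ⟨pr 0, (!₂[0, 1, 0] : Euc 3), fun h => ?_⟩, fun γ hγ => ?_,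
    _, lightlike_example, _, _, ?_, eta_line _ _⟩
  · have h1 : th (chartAt (Euc 3) (pr 0) (pr 0)) !₂[0, 1, 0] = 0 := h
    simp at h1
  · obtain ⟨y, w, rfl⟩ := geodesic_univ hγ.1
    exact ⟨_, _, eta_line y w⟩
  · simp

end Pool.Agent.Results.MP_64c48d_gt.Nilmanifold
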